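import Mathlib

/-!
# Random objects and thin sets of objects (helper57)

A set `S` of objects with at most `C X ^ (s + ε)` members of height at most `X` is avoided by random objects `X_n`, of any
dependence, with `P (X_n = t) ≤ C h(t) ^ (-γ)`, where `γ > s`, if the heights of the `X_n` are large.
-/

set_option autoImplicit false

namespace Pool.Agent.J4.H57.RS

open Finset MeasureTheory Filter
open scoped ENNReal Topology

/-- the probability of a member of the thin set of height at least `M` -/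
lemma tail {T : Type} (S : Set T) (h : T → ℝ) {s γ τ : ℝ} (hγ : 0 ≤ γ) (hτ0 : 0 ≤ τ) (hτ : τ < γ - s)
    (hS : ∀ ε : ℝ, 0 < ε → ∃ C : ℝ, ∀ X : ℝ, 1 ≤ X →
      {t | t ∈ S ∧ h t ≤ X}.Finite ∧ ({t | t ∈ S ∧ h t ≤ X}.ncard : ℝ) ≤ C * X ^ (s + ε)) (C : ℝ) :
    ∃ K : ℝ, 0 ≤ K ∧ ∀ {Ω : Type} [MeasurableSpace Ω] (μ : Measure Ω) (X : Ω → T),
      (∀ t ∈ S, 1 ≤ h t → μ {ω | X ω = t} ≤ ENNReal.ofReal (C * (h t) ^ (-γ))) → ∀ M : ℝ, 1 ≤ M →
        μ {ω | X ω ∈ S ∧ M ≤ h (X ω)} ≤ ENNReal.ofReal (K * M ^ (-τ)) := by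
  classical
  obtain ⟨ε, hε⟩ : ∃ ε : ℝ, ε = (γ - s - τ) / 2 := ⟨_, rfl⟩
  have hε0 : 0 < ε := by rw [hε]; linarith
  obtain ⟨D, hD⟩ := hS ε hε0
  obtain ⟨b, hb⟩ : ∃ b : ℝ, b = s + ε - γ := ⟨_, rfl⟩
  have hbτ : b = -(τ + ε) := by rw [hb, hε]; ring
  have hbneg : b < 0 := by rw [hbτ]; linarith
  set q : ℝ := 2 ^ b with hq
  have hq0 : 0 < q := by positivity
  have hq1 : q < 1 := Real.rpow_lt_one_of_one_lt_of_neg (by norm_num) hbneg
  refine ⟨|D| * |C| * 2 ^ (s + ε) * (1 - q)⁻¹, by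
    have : 0 < 1 - q := by linarith
    positivity, fun {Ω} _ μ X hX M hM => ?_⟩
  have hM0 : 0 < M := by linarith
  have hjM : ∀ j : ℕ, 1 ≤ 2 ^ (j + 1) * M := fun j => by
    have : (1 : ℝ) ≤ 2 ^ (j + 1) := one_le_pow₀ (by norm_num)
    nlinarith
  have hcover : {ω | X ω ∈ S ∧ M ≤ h (X ω)} ⊆
      ⋃ j : ℕ, ⋃ t ∈ (hD (2 ^ (j + 1) * M) (hjM j)).1.toFinset.filter (fun t => 2 ^ j * M ≤ h t), {ω | X ω = t} := by
    rintro ω ⟨h1, h2⟩
    obtain ⟨j, j1, j2⟩ := exists_nat_pow_near (x := h (X ω) / M) (y := 2)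
      (by rw [le_div_iff₀ hM0]; linarith) (by norm_num)
    rw [le_div_iff₀ hM0] at j1
    rw [div_lt_iff₀ hM0] at j2
    rw [Set.mem_iUnion]
    refine ⟨j, ?_⟩
    rw [Set.mem_iUnion₂]
    refine ⟨X ω, ?_, rfl⟩
    rw [Finset.mem_filter, Set.Finite.mem_toFinset]
    exact ⟨⟨h1, j2.le⟩, j1⟩
  have hterm : ∀ j : ℕ, μ (⋃ t ∈ (hD (2 ^ (j + 1) * M) (hjM j)).1.toFinset.filter (fun t => 2 ^ j * M ≤ h t),
        {ω | X ω = t}) ≤ ENNReal.ofReal (|D| * |C| * 2 ^ (s + ε) * M ^ b * q ^ j) := by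
    intro j
    refine (measure_biUnion_finset_le _ _).trans ?_
    have hj0 : (0 : ℝ) < 2 ^ j := by positivity
    have h1 : ∀ t ∈ (hD (2 ^ (j + 1) * M) (hjM j)).1.toFinset.filter (fun t => 2 ^ j * M ≤ h t),
        μ {ω | X ω = t} ≤ ENNReal.ofReal (|C| * (2 ^ j * M) ^ (-γ)) := by
      intro t ht
      rw [Finset.mem_filter, Set.Finite.mem_toFinset] at ht
      have h2j : (1 : ℝ) ≤ 2 ^ j := one_le_pow₀ (by norm_num)
      have h2 : 1 ≤ h t := by nlinarith [ht.2]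
      refine (hX t ht.1.1 h2).trans (ENNReal.ofReal_le_ofReal ?_)
      have h3 : (h t) ^ (-γ) ≤ (2 ^ j * M) ^ (-γ) :=
        Real.rpow_le_rpow_of_nonpos (by positivity) ht.2 (by linarith)
      calc C * (h t) ^ (-γ) ≤ |C| * (h t) ^ (-γ) :=
            mul_le_mul_of_nonneg_right (le_abs_self C) (Real.rpow_nonneg (by linarith) _)
        _ ≤ |C| * (2 ^ j * M) ^ (-γ) := mul_le_mul_of_nonneg_left h3 (abs_nonneg C)
    refine (Finset.sum_le_sum h1).trans ?_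
    rw [Finset.sum_const, nsmul_eq_mul, ← ENNReal.ofReal_natCast, ← ENNReal.ofReal_mul (by positivity)]
    apply ENNReal.ofReal_le_ofReal
    have h4 : (((hD (2 ^ (j + 1) * M) (hjM j)).1.toFinset.filter (fun t => 2 ^ j * M ≤ h t)).card : ℝ) ≤
        |D| * (2 ^ (j + 1) * M) ^ (s + ε) := by
      have h5 := (hD (2 ^ (j + 1) * M) (hjM j)).2
      rw [Set.ncard_eq_toFinset_card _ (hD (2 ^ (j + 1) * M) (hjM j)).1] at h5
      refine le_trans ?_ (h5.trans (mul_le_mul_of_nonneg_right (le_abs_self D) (by positivity)))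
      exact Nat.cast_le.2 (Finset.card_filter_le _ _)
    calc (((hD (2 ^ (j + 1) * M) (hjM j)).1.toFinset.filter (fun t => 2 ^ j * M ≤ h t)).card : ℝ) *
          (|C| * (2 ^ j * M) ^ (-γ))
        ≤ |D| * (2 ^ (j + 1) * M) ^ (s + ε) * (|C| * (2 ^ j * M) ^ (-γ)) :=
          mul_le_mul_of_nonneg_right h4 (by positivity)
      _ = |D| * |C| * 2 ^ (s + ε) * M ^ b * q ^ j := by
          have e1 : (2 ^ (j + 1) * M : ℝ) = 2 * (2 ^ j * M) := by ring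
          have e2 : (q : ℝ) ^ j = (2 ^ j : ℝ) ^ b := by
            rw [hq, ← Real.rpow_natCast, ← Real.rpow_natCast, ← Real.rpow_mul (by norm_num),
              ← Real.rpow_mul (by norm_num), mul_comm]
          rw [e1, Real.mul_rpow (by norm_num) (by positivity), e2]
          have e3 : (2 ^ j * M : ℝ) ^ (s + ε) * (2 ^ j * M : ℝ) ^ (-γ) = (2 ^ j * M : ℝ) ^ b := by
            rw [← Real.rpow_add (by positivity)]
            congr 1
            rw [hb]; ring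
          have e4 : (2 ^ j * M : ℝ) ^ b = (2 ^ j : ℝ) ^ b * M ^ b := Real.mul_rpow (by positivity) hM0.le
          calc |D| * (2 ^ (s + ε) * (2 ^ j * M) ^ (s + ε)) * (|C| * (2 ^ j * M) ^ (-γ))
              = |D| * |C| * 2 ^ (s + ε) * ((2 ^ j * M) ^ (s + ε) * (2 ^ j * M) ^ (-γ)) := by ring
            _ = _ := by rw [e3, e4]; ring
  calc μ {ω | X ω ∈ S ∧ M ≤ h (X ω)} ≤ _ := (measure_mono hcover).trans (measure_iUnion_le _)
    _ ≤ ∑' j : ℕ, ENNReal.ofReal (|D| * |C| * 2 ^ (s + ε) * M ^ b * q ^ j) := ENNReal.tsum_le_tsum hterm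
    _ = ENNReal.ofReal (|D| * |C| * 2 ^ (s + ε) * (1 - q)⁻¹ * M ^ b) := by
        have hg : Summable fun n : ℕ => q ^ n := summable_geometric_of_lt_one hq0.le hq1
        rw [← ENNReal.ofReal_tsum_of_nonneg (fun j => by positivity) (hg.mul_left _), tsum_mul_left,
          tsum_geometric_of_lt_one hq0.le hq1]
        congr 1
        ring
    _ ≤ ENNReal.ofReal (|D| * |C| * 2 ^ (s + ε) * (1 - q)⁻¹ * M ^ (-τ)) := by
        apply ENNReal.ofReal_le_ofReal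
        apply mul_le_mul_of_nonneg_left _ (by
          have : 0 < 1 - q := by linarith
          positivity)
        exact Real.rpow_le_rpow_of_exponent_le hM (by rw [hbτ]; linarith)

/-- **Random objects avoid thin sets.** -/
theorem rand_power {T : Type} (S : Set T) (h : T → ℝ) {s γ τ : ℝ} (hγ : 0 ≤ γ) (hτ0 : 0 ≤ τ) (hτ : τ < γ - s)
    (hS : ∀ ε : ℝ, 0 < ε → ∃ C : ℝ, ∀ X : ℝ, 1 ≤ X →
      {t | t ∈ S ∧ h t ≤ X}.Finite ∧ ({t | t ∈ S ∧ h t ≤ X}.ncard : ℝ) ≤ C * X ^ (s + ε))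
    {Ω : Type} [MeasurableSpace Ω] (μ : Measure Ω) (X : ℕ → Ω → T) (C : ℝ) (M : ℕ → ℝ) (hM : ∀ n, 1 ≤ M n)
    (hMs : Summable fun n => (M n) ^ (-τ))
    (hX : ∀ n, ∀ t ∈ S, 1 ≤ h t → μ {ω | X n ω = t} ≤ ENNReal.ofReal (C * (h t) ^ (-γ)))
    (hsmall : ∑' n, μ {ω | h (X n ω) < M n} ≠ ∞) :
    ∀ᵐ ω ∂μ, ∀ᶠ n in atTop, X n ω ∉ S := by
  obtain ⟨K, hK0, hK⟩ := tail S h hγ hτ0 hτ hS C
  have hbad : ∑' n : ℕ, μ {ω | X n ω ∈ S} ≠ ∞ := by
    have h1 : ∀ n, μ {ω | X n ω ∈ S} ≤ μ {ω | h (X n ω) < M n} + ENNReal.ofReal (K * (M n) ^ (-τ)) := by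
      intro n
      have h2 : {ω | X n ω ∈ S} ⊆ {ω | h (X n ω) < M n} ∪ {ω | X n ω ∈ S ∧ M n ≤ h (X n ω)} := by
        intro ω hω
        by_cases h3 : h (X n ω) < M n
        · exact Or.inl h3
        · exact Or.inr ⟨hω, not_lt.1 h3⟩
      exact (measure_mono h2).trans ((measure_union_le _ _).trans
        (add_le_add le_rfl (hK μ (X n) (fun t h1 h2 => hX n t h1 h2) (M n) (hM n))))
    refine ne_top_of_le_ne_top ?_ (ENNReal.tsum_le_tsum h1)
    rw [ENNReal.tsum_add]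
    refine ENNReal.add_ne_top.2 ⟨hsmall, ?_⟩
    have hnn : ∀ n, 0 ≤ K * (M n) ^ (-τ) := fun n => by
      have := hM n
      positivity
    rw [← ENNReal.ofReal_tsum_of_nonneg hnn (hMs.mul_left _)]
    exact ENNReal.ofReal_ne_top
  filter_upwards [ae_eventually_notMem hbad] with ω hω
  filter_upwards [hω] with n hn
  exact hn

end Pool.Agent.J4.H57.RS
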